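import Mathlib

set_option autoImplicit false

/-!
# The Erdos-Gallai inequalities for the imbalances of the edges of a graph
-/

namespace Run7.h706.Imb

open Finset

section

variable {V : Type*} [Fintype V] [DecidableEq V] (G : SimpleGraph V) [DecidableRel G.Adj]

/-- The imbalance `|deg u - deg v|` of the pair `u v`. -/
def im (e : Sym2 V) : ℕ :=
  Sym2.lift ⟨fun u v => ((G.degree u : ℤ) - (G.degree v : ℤ)).natAbs, fun u v => by
    change ((G.degree u : ℤ) - (G.degree v : ℤ)).natAbs =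
      ((G.degree v : ℤ) - (G.degree u : ℤ)).natAbs
    omega⟩ e

lemma im_mk (u v : V) : im G s(u, v) = ((G.degree u : ℤ) - (G.degree v : ℤ)).natAbs := rfl

/-- The edges which avoid `u` and meet `S`. -/
def meet (u : V) (S : Finset V) : Finset (Sym2 V) :=
  G.edgeFinset.filter fun e => u ∉ e ∧ ∃ v ∈ S, v ∈ e

lemma meet_card (u : V) (S : Finset V) (hu : u ∉ S) :
    ∑ v ∈ S, 2 * ((G.degree v : ℤ) - 1) ≤ 2 * ((meet G u S).card : ℤ) +
      (S.card : ℤ) * ((S.card : ℤ) - 1) := by
  induction S using Finset.induction_on with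
  | empty => simp
  | @insert v S hv ih =>
    have hu' : u ∉ S := fun h => hu (mem_insert_of_mem h)
    have huv : v ≠ u := fun h => hu (h ▸ mem_insert_self v S)
    have ih' := ih hu'
    set B : Finset (Sym2 V) := ((G.neighborFinset v \ insert u S)).image (fun w => s(v, w)) with hB
    have hBcard : (G.degree v : ℤ) - 1 - S.card ≤ B.card := by
      have hinj : Set.InjOn (fun w => s(v, w)) (G.neighborFinset v \ insert u S : Finset V) := by
        intro a _ b _ hab
        exact Sym2.congr_right.1 hab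
      rw [hB, card_image_of_injOn hinj]
      have h1 := le_card_sdiff (insert u S) (G.neighborFinset v)
      have h2 : (insert u S).card ≤ S.card + 1 := card_insert_le _ _
      rw [SimpleGraph.card_neighborFinset_eq_degree] at h1
      omega
    have hdisj : Disjoint (meet G u S) B := by
      rw [disjoint_left]
      intro e he heB
      rw [hB, mem_image] at heB
      obtain ⟨w, hw, rfl⟩ := heB
      rw [mem_sdiff, mem_insert, not_or] at hw
      obtain ⟨-, -, x, hx, hxe⟩ := mem_filter.1 he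
      rw [Sym2.mem_iff] at hxe
      rcases hxe with rfl | rfl
      · exact hv hx
      · exact hw.2.2 hx
    have hsub : meet G u S ∪ B ⊆ meet G u (insert v S) := by
      intro e he
      rcases mem_union.1 he with he | he
      · obtain ⟨h1, h2, x, hx, hxe⟩ := mem_filter.1 he
        exact mem_filter.2 ⟨h1, h2, x, mem_insert_of_mem hx, hxe⟩
      · rw [hB, mem_image] at he
        obtain ⟨w, hw, rfl⟩ := he
        rw [mem_sdiff, mem_insert, not_or, SimpleGraph.mem_neighborFinset] at hw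
        refine mem_filter.2 ⟨?_, ?_, v, mem_insert_self _ _, Sym2.mem_mk_left _ _⟩
        · rw [SimpleGraph.mem_edgeFinset, SimpleGraph.mem_edgeSet]
          exact hw.1
        · rw [Sym2.mem_iff, not_or]
          exact ⟨huv.symm, fun h => hw.2.1 h.symm⟩
    have hcard := card_le_card hsub
    rw [card_union_of_disjoint hdisj] at hcard
    rw [sum_insert hv, card_insert_of_notMem hv]
    push_cast
    have h3 : ((meet G u S).card : ℤ) + B.card ≤ (meet G u (insert v S)).card := by
      exact_mod_cast hcard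
    nlinarith

end

lemma arith (D q s k : ℤ) (hD : 1 ≤ D) (hq : 0 ≤ q) (hqk : q ≤ k - 1) (hs : 0 ≤ s)
    (hsD : s ≤ D + q) : 0 ≤ s * (2 * D - 1 - s) + 2 * q * (k - 1) := by
  rcases le_or_gt s (2 * D - 1) with h | h
  · have h1 : 0 ≤ s * (2 * D - 1 - s) := mul_nonneg hs (by linarith)
    have h2 : 0 ≤ 2 * q * (k - 1) := mul_nonneg (by linarith) (by linarith)
    linarith
  · have h1 : 0 ≤ (D + q - s) * (s - D + q + 1) := mul_nonneg (by linarith) (by linarith)
    have h2 : 0 ≤ D * (D - 1) := mul_nonneg (by linarith) (by linarith)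
    have hq1 : 1 ≤ q := by
      by_contra hc
      have : q = 0 := by omega
      omega
    have h3 : 0 ≤ q * (2 * k - 3 - q) := mul_nonneg hq (by linarith)
    nlinarith

section

variable {V : Type*} [Fintype V] [DecidableEq V] (G : SimpleGraph V) [DecidableRel G.Adj]

lemma main (h : ∀ e ∈ G.edgeFinset, 0 < im G e) (T : Finset (Sym2 V)) (hT : T ⊆ G.edgeFinset)
    (hk1 : 1 ≤ T.card) : ∑ e ∈ T, im G e ≤ T.card * (T.card - 1) +
      ∑ e ∈ G.edgeFinset \ T, min (im G e) T.card := by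
  obtain ⟨k, hk⟩ : ∃ k, k = T.card := ⟨_, rfl⟩
  rw [← hk] at hk1 ⊢
  -- an endpoint of maximal degree
  have hPne : (univ.filter fun v : V => ∃ e ∈ T, v ∈ e).Nonempty := by
    have : T.Nonempty := card_pos.1 (by omega)
    obtain ⟨e, he⟩ := this
    induction e using Sym2.ind with
    | _ x y => exact ⟨x, mem_filter.2 ⟨mem_univ _, _, he, Sym2.mem_mk_left _ _⟩⟩
  obtain ⟨u, hu, hmax⟩ := exists_max_image _ (fun v => G.degree v) hPne
  obtain ⟨-, e0, he0, hue0⟩ := mem_filter.1 hu
  obtain ⟨Δ, hΔ⟩ : ∃ Δ, Δ = G.degree u := ⟨_, rfl⟩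
  have htop : ∀ e ∈ T, im G e ≤ Δ - 1 := by
    intro e he
    have heE := hT he
    induction e using Sym2.ind with
    | _ x y =>
      have hx := hmax x (mem_filter.2 ⟨mem_univ _, _, he, Sym2.mem_mk_left _ _⟩)
      have hy := hmax y (mem_filter.2 ⟨mem_univ _, _, he, Sym2.mem_mk_right _ _⟩)
      rw [SimpleGraph.mem_edgeFinset, SimpleGraph.mem_edgeSet] at heE
      have hx1 : 0 < G.degree x := (G.degree_pos_iff_exists_adj x).2 ⟨y, heE⟩
      have hy1 : 0 < G.degree y := (G.degree_pos_iff_exists_adj y).2 ⟨x, heE.symm⟩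
      rw [im_mk]
      omega
  have hsum : ∑ e ∈ T, im G e ≤ k * (Δ - 1) := by
    calc ∑ e ∈ T, im G e ≤ ∑ _e ∈ T, (Δ - 1) := sum_le_sum htop
      _ = k * (Δ - 1) := by rw [sum_const, smul_eq_mul, hk]
  rcases le_or_gt Δ k with hΔk | hΔk
  · have : k * (Δ - 1) ≤ k * (k - 1) := Nat.mul_le_mul_left _ (by omega)
    omega
  -- the sets of neighbours
  set N := G.neighborFinset u with hN
  have hNmem : ∀ v, v ∈ N ↔ G.Adj u v := fun v => by rw [hN, SimpleGraph.mem_neighborFinset]
  set A := N.filter fun v => s(u, v) ∈ T with hA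
  set B := (N.filter fun v => s(u, v) ∉ T).filter fun v => k ≤ im G s(u, v) with hB
  set C := (N.filter fun v => s(u, v) ∉ T).filter fun v => ¬ k ≤ im G s(u, v) with hC
  have hcard1 : A.card + (B.card + C.card) = Δ := by
    have h1 := card_filter_add_card_filter_not (s := N) (fun v => s(u, v) ∈ T)
    have h2 := card_filter_add_card_filter_not (s := N.filter fun v => s(u, v) ∉ T)
      (fun v => k ≤ im G s(u, v))
    rw [hN, SimpleGraph.card_neighborFinset_eq_degree, ← hN, ← hΔ] at h1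
    rw [← hB, ← hC] at h2
    rw [← hA] at h1
    omega
  have hinj : ∀ S : Finset V, Set.InjOn (fun w => s(u, w)) (S : Set V) := by
    intro S a _ b _ hab
    exact Sym2.congr_right.1 hab
  -- edges of T at u
  have hTu : (T.filter fun e => u ∈ e) = A.image (fun w => s(u, w)) := by
    ext e
    rw [mem_filter, mem_image]
    constructor
    · rintro ⟨he, hue⟩
      obtain ⟨w, rfl⟩ := Sym2.mem_iff_exists.1 hue
      have := hT he
      rw [SimpleGraph.mem_edgeFinset, SimpleGraph.mem_edgeSet] at this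
      exact ⟨w, mem_filter.2 ⟨(hNmem w).2 this, he⟩, rfl⟩
    · rintro ⟨w, hw, rfl⟩
      exact ⟨(mem_filter.1 hw).2, Sym2.mem_mk_left _ _⟩
  have hTucard : (T.filter fun e => u ∈ e).card = A.card := by
    rw [hTu, card_image_of_injOn (hinj A)]
  have hTsplit : A.card + (T.filter fun e => ¬ u ∈ e).card = k := by
    rw [← hTucard, hk]
    exact card_filter_add_card_filter_not _
  have hA1 : 1 ≤ A.card := by
    rw [← hTucard]
    exact card_pos.2 ⟨e0, mem_filter.2 ⟨he0, hue0⟩⟩
  have huC : u ∉ C := by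
    intro hc
    have h1 := (mem_filter.1 (mem_filter.1 hc).1).1
    exact G.irrefl ((hNmem u).1 h1)
  -- the sum over the other edges
  set E1 := (B ∪ C).image (fun w => s(u, w)) with hE1
  set E2 := meet G u C \ T with hE2
  have hBC : Disjoint B C := disjoint_filter_filter_not _ _ _
  have hE1sub : E1 ⊆ G.edgeFinset \ T := by
    intro e he
    rw [hE1, mem_image] at he
    obtain ⟨w, hw, rfl⟩ := he
    have hw' : w ∈ N.filter fun v => s(u, v) ∉ T := by
      rcases mem_union.1 hw with hw | hw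
      · exact (mem_filter.1 hw).1
      · exact (mem_filter.1 hw).1
    obtain ⟨h1, h2⟩ := mem_filter.1 hw'
    rw [mem_sdiff, SimpleGraph.mem_edgeFinset, SimpleGraph.mem_edgeSet]
    exact ⟨(hNmem w).1 h1, h2⟩
  have hE2sub : E2 ⊆ G.edgeFinset \ T := by
    intro e he
    rw [hE2, mem_sdiff] at he
    exact mem_sdiff.2 ⟨(mem_filter.1 he.1).1, he.2⟩
  have hE12 : Disjoint E1 E2 := by
    rw [disjoint_left]
    intro e he1 he2
    rw [hE1, mem_image] at he1
    obtain ⟨w, -, rfl⟩ := he1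
    rw [hE2, mem_sdiff] at he2
    exact (mem_filter.1 he2.1).2.1 (Sym2.mem_mk_left _ _)
  have hlow : ∑ e ∈ E1, min (im G e) k + ∑ e ∈ E2, min (im G e) k ≤
      ∑ e ∈ G.edgeFinset \ T, min (im G e) k := by
    rw [← sum_union hE12]
    exact sum_le_sum_of_subset (union_subset hE1sub hE2sub)
  have hS1 : (k : ℤ) * B.card + ∑ v ∈ C, ((Δ : ℤ) - G.degree v) ≤
      ((∑ e ∈ E1, min (im G e) k : ℕ) : ℤ) := by
    rw [hE1, sum_image (fun a _ b _ hab => Sym2.congr_right.1 hab), sum_union hBC]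
    push_cast
    refine add_le_add ?_ ?_
    · have h1 : ∀ v ∈ B, (k : ℤ) ≤ min (im G s(u, v) : ℤ) k := by
        intro v hv
        have := (mem_filter.1 hv).2
        rw [min_eq_right (by exact_mod_cast this)]
      calc (k : ℤ) * B.card = ∑ _v ∈ B, (k : ℤ) := by rw [sum_const, nsmul_eq_mul]; ring
        _ ≤ _ := sum_le_sum h1
    · refine sum_le_sum fun v hv => ?_
      have h1 := (mem_filter.1 hv).2
      rw [im_mk, ← hΔ] at h1 ⊢
      omega
  have hS2 : ((meet G u C).card : ℤ) - ((k : ℤ) - A.card) ≤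
      ((∑ e ∈ E2, min (im G e) k : ℕ) : ℤ) := by
    have h1 : E2.card ≤ ∑ e ∈ E2, min (im G e) k := by
      calc E2.card = ∑ _e ∈ E2, 1 := by simp
        _ ≤ _ := sum_le_sum fun e he => by
          have h2 := h e (mem_sdiff.1 (hE2sub he)).1
          omega
    have h3 : (meet G u C).card ≤ E2.card + (T.filter fun e => ¬ u ∈ e).card := by
      have h4 : meet G u C ⊆ E2 ∪ (T.filter fun e => ¬ u ∈ e) := by
        intro e he
        by_cases hT' : e ∈ T
        · exact mem_union_right _ (mem_filter.2 ⟨hT', (mem_filter.1 he).2.1⟩)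
        · exact mem_union_left _ (mem_sdiff.2 ⟨he, hT'⟩)
      exact (card_le_card h4).trans (card_union_le _ _)
    omega
  have hmeet := meet_card G u C huC
  rw [← mul_sum, sum_sub_distrib] at hmeet
  rw [sum_sub_distrib] at hS1
  simp only [sum_const, nsmul_eq_mul, mul_one] at hmeet hS1
  obtain ⟨X, hX⟩ : ∃ X : ℤ, X = ∑ v ∈ C, (G.degree v : ℤ) := ⟨_, rfl⟩
  rw [← hX] at hmeet hS1
  have har := arith ((Δ : ℤ) - k) ((k : ℤ) - A.card) C.card k (by omega) (by omega) (by omega)
    (by omega) (by omega)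
  obtain ⟨M, hM⟩ : ∃ M : ℤ, M = ((meet G u C).card : ℤ) := ⟨_, rfl⟩
  rw [← hM] at hmeet hS2
  obtain ⟨c, hc⟩ : ∃ c : ℤ, c = (C.card : ℤ) := ⟨_, rfl⟩
  obtain ⟨b, hb⟩ : ∃ b : ℤ, b = (B.card : ℤ) := ⟨_, rfl⟩
  obtain ⟨a, ha⟩ : ∃ a : ℤ, a = (A.card : ℤ) := ⟨_, rfl⟩
  rw [← hc] at hmeet hS1 har
  rw [← hb] at hS1
  rw [← ha] at hS2 har
  have hcard2 : a + (b + c) = (Δ : ℤ) := by
    rw [ha, hb, hc]
    exact_mod_cast hcard1
  have hlow' : ((∑ e ∈ E1, min (im G e) k : ℕ) : ℤ) + ((∑ e ∈ E2, min (im G e) k : ℕ) : ℤ) ≤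
      ((∑ e ∈ G.edgeFinset \ T, min (im G e) k : ℕ) : ℤ) := by exact_mod_cast hlow
  have hgoal : (k : ℤ) * ((Δ : ℤ) - 1) ≤ (k : ℤ) * ((k : ℤ) - 1) +
      ((∑ e ∈ G.edgeFinset \ T, min (im G e) k : ℕ) : ℤ) := by
    have h5 : b = (Δ : ℤ) - a - c := by linarith
    rw [h5] at hS1
    nlinarith
  have hsum' : ((∑ e ∈ T, im G e : ℕ) : ℤ) ≤ (k : ℤ) * ((Δ : ℤ) - 1) := by
    have h6 : ((k * (Δ - 1) : ℕ) : ℤ) = (k : ℤ) * ((Δ : ℤ) - 1) := by
      push_cast [Nat.cast_sub (show 1 ≤ Δ by omega)]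
      ring
    rw [← h6]
    exact_mod_cast hsum
  have hfin : ((∑ e ∈ T, im G e : ℕ) : ℤ) ≤ ((k * (k - 1) +
      ∑ e ∈ G.edgeFinset \ T, min (im G e) k : ℕ) : ℤ) := by
    rw [Nat.cast_add, Nat.cast_mul, Nat.cast_sub hk1]
    push_cast at hsum' hgoal ⊢
    linarith
  exact_mod_cast hfin

/-- The sum of the imbalances is even. -/
lemma even_sum : Even (∑ e ∈ G.edgeFinset, im G e) := by
  have h1 : ∀ e ∈ G.edgeFinset, ((im G e : ℕ) : ZMod 2) =
      ∑ v : V, if v ∈ e then ((G.degree v : ℕ) : ZMod 2) else 0 := by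
    intro e he
    induction e using Sym2.ind with
    | _ x y =>
      rw [SimpleGraph.mem_edgeFinset, SimpleGraph.mem_edgeSet] at he
      have hxy := he.ne
      have h2 : (∑ v : V, if v ∈ s(x, y) then ((G.degree v : ℕ) : ZMod 2) else 0) =
          ((G.degree x : ℕ) : ZMod 2) + ((G.degree y : ℕ) : ZMod 2) := by
        rw [← sum_filter]
        have : (univ.filter fun v : V => v ∈ s(x, y)) = {x, y} := by
          ext v
          simp [Sym2.mem_iff]
        rw [this, sum_pair hxy]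
      rw [h2, im_mk]
      have h3 : (((((G.degree x : ℤ) - (G.degree y : ℤ)).natAbs : ℕ) : ℤ) : ZMod 2) =
          (((G.degree x : ℤ) + (G.degree y : ℤ) : ℤ) : ZMod 2) := by
        rw [ZMod.intCast_eq_intCast_iff_dvd_sub]
        omega
      have h4 : ((((G.degree x : ℤ) - (G.degree y : ℤ)).natAbs : ℕ) : ZMod 2) =
          (((((G.degree x : ℤ) - (G.degree y : ℤ)).natAbs : ℕ) : ℤ) : ZMod 2) := by
        rw [Int.cast_natCast]
      rw [h4, h3]
      push_cast
      rfl
  have h2 : ((∑ e ∈ G.edgeFinset, im G e : ℕ) : ZMod 2) = 0 := by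
    rw [Nat.cast_sum, sum_congr rfl h1, sum_comm]
    have h3 : ∀ v : V, (∑ e ∈ G.edgeFinset, if v ∈ e then ((G.degree v : ℕ) : ZMod 2) else 0) =
        ((G.degree v : ℕ) : ZMod 2) := by
      intro v
      rw [← sum_filter, sum_const]
      have h4 : (G.edgeFinset.filter fun e => v ∈ e).card = G.degree v := by
        rw [← SimpleGraph.incidenceFinset_eq_filter, SimpleGraph.card_incidenceFinset_eq_degree]
      rw [h4, nsmul_eq_mul]
      have h5 : ∀ z : ZMod 2, z * z = z := by decide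
      exact h5 _
    rw [sum_congr rfl (fun v _ => h3 v), ← Nat.cast_sum, G.sum_degrees_eq_twice_card_edges]
    push_cast
    have : (2 : ZMod 2) = 0 := by decide
    rw [this, zero_mul]
  rw [ZMod.natCast_eq_zero_iff] at h2
  exact even_iff_two_dvd.2 h2

end

end Run7.h706.Imb
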