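import Mathlib

set_option autoImplicit false

/-!
# Strong d-spaces: a strong d-space whose square is not a strong d-space
-/

namespace Run7.h706.StrongD

open Set

/-- The upper set `↑x` for the specialization order: all `y` with `x` in the closure of `y`. -/
def up {X : Type*} [TopologicalSpace X] (x : X) : Set X := {y | x ∈ closure {y}}

/-- A `T₀` space `X` is a strong d-space if for every nonempty set `D` which is directed for the
specialization order (`a ≤ b` if `a` is in the closure of `b`), every point `x` and every open set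
`U`, if the intersection of `↑x` and all `↑d`, `d ∈ D`, is contained in `U`, then the intersection
of `↑x` and `↑d` is contained in `U` for some `d ∈ D`. -/
def IsStrongDSpace (X : Type*) [TopologicalSpace X] : Prop :=
  T0Space X ∧ ∀ D : Set X, D.Nonempty → DirectedOn (fun a b => a ∈ closure {b}) D →
    ∀ (x : X) (U : Set X), IsOpen U → (⋂ d ∈ D, up d) ∩ up x ⊆ U → ∃ d ∈ D, up d ∩ up x ⊆ U

/-- The points: a chain `c 0 < c 1 < ...` with top element `top`; two points `e b` below all
points `m n`. -/
inductive Z : Type
  | c (n : ℕ) : Z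
  | top : Z
  | e (b : Bool) : Z
  | m (n : ℕ) : Z

namespace Z

/-- The open sets are the upper sets which with `top` contain some `c k`. -/
def Op (U : Set Z) : Prop :=
  (∀ k l, k ≤ l → c k ∈ U → c l ∈ U) ∧ (∀ k, c k ∈ U → top ∈ U) ∧ (top ∈ U → ∃ k, c k ∈ U) ∧
    ∀ b n, e b ∈ U → m n ∈ U

instance : TopologicalSpace Z where
  IsOpen := Op
  isOpen_univ := ⟨fun _ _ _ _ => trivial, fun _ _ => trivial, fun _ => ⟨0, trivial⟩,
    fun _ _ _ => trivial⟩
  isOpen_inter := by
    rintro U V ⟨h1, h2, h3, h4⟩ ⟨g1, g2, g3, g4⟩
    refine ⟨fun k l hkl h => ⟨h1 k l hkl h.1, g1 k l hkl h.2⟩, fun k h => ⟨h2 k h.1, g2 k h.2⟩, ?_,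
      fun b n h => ⟨h4 b n h.1, g4 b n h.2⟩⟩
    rintro ⟨hU, hV⟩
    obtain ⟨k, hk⟩ := h3 hU
    obtain ⟨l, hl⟩ := g3 hV
    exact ⟨max k l, h1 k _ (le_max_left _ _) hk, g1 l _ (le_max_right _ _) hl⟩
  isOpen_sUnion := by
    intro S hS
    refine ⟨?_, ?_, ?_, ?_⟩
    · rintro k l hkl ⟨U, hU, h⟩
      exact ⟨U, hU, (hS U hU).1 k l hkl h⟩
    · rintro k ⟨U, hU, h⟩
      exact ⟨U, hU, (hS U hU).2.1 k h⟩
    · rintro ⟨U, hU, h⟩
      obtain ⟨k, hk⟩ := (hS U hU).2.2.1 h
      exact ⟨k, U, hU, hk⟩
    · rintro b n ⟨U, hU, h⟩
      exact ⟨U, hU, (hS U hU).2.2.2 b n h⟩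

lemma isOpen_iff (U : Set Z) : IsOpen U ↔ Op U := Iff.rfl

/-- The specialization order. -/
def le : Z → Z → Prop
  | c k, c l => k ≤ l
  | c _, top => True
  | top, top => True
  | e b, e b' => b = b'
  | e _, m _ => True
  | m n, m n' => n = n'
  | _, _ => False

lemma isOpen_c (k : ℕ) : IsOpen {z | le (c k) z} := by
  refine ⟨fun i j hij h => ?_, fun _ _ => trivial, fun _ => ⟨k, le_refl k⟩, fun b n h => h.elim⟩
  exact le_trans h hij

lemma isOpen_m (n : ℕ) : IsOpen ({m n} : Set Z) := by
  refine ⟨fun i j _ h => ?_, fun i h => ?_, fun h => ?_, fun b n' h => ?_⟩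
  all_goals simp at h

lemma isOpen_e (b : Bool) : IsOpen {z | le (e b) z} := by
  refine ⟨fun i j _ h => h.elim, fun i h => h.elim, fun h => h.elim, fun _ _ _ => trivial⟩

lemma mem_closure_iff_le (x y : Z) : x ∈ closure {y} ↔ le x y := by
  rw [mem_closure_iff]
  constructor
  · intro h
    cases x with
    | c k =>
      obtain ⟨z, hz, hz'⟩ := h _ (isOpen_c k) (le_refl k)
      rwa [mem_singleton_iff.1 hz'] at hz
    | top =>
      cases y with
      | c l =>
        obtain ⟨z, hz, hz'⟩ := h _ (isOpen_c (l + 1)) trivial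
        rw [mem_singleton_iff.1 hz'] at hz
        exact absurd hz (by change ¬ (l + 1 ≤ l); omega)
      | top => trivial
      | e b =>
        obtain ⟨z, hz, hz'⟩ := h _ (isOpen_c 0) trivial
        rw [mem_singleton_iff.1 hz'] at hz
        exact hz.elim
      | m n =>
        obtain ⟨z, hz, hz'⟩ := h _ (isOpen_c 0) trivial
        rw [mem_singleton_iff.1 hz'] at hz
        exact hz.elim
    | e b =>
      obtain ⟨z, hz, hz'⟩ := h _ (isOpen_e b) rfl
      rwa [mem_singleton_iff.1 hz'] at hz
    | m n =>
      obtain ⟨z, hz, hz'⟩ := h _ (isOpen_m n) rfl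
      rw [mem_singleton_iff.1 hz', mem_singleton_iff] at hz
      rw [hz]
      rfl
  · intro h U hU hx
    refine ⟨y, ?_, rfl⟩
    obtain ⟨h1, h2, h3, h4⟩ := hU
    cases x with
    | c k =>
      cases y with
      | c l => exact h1 k l h hx
      | top => exact h2 k hx
      | e b => exact h.elim
      | m n => exact h.elim
    | top =>
      cases y with
      | c l => exact h.elim
      | top => exact hx
      | e b => exact h.elim
      | m n => exact h.elim
    | e b =>
      cases y with
      | c l => exact h.elim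
      | top => exact h.elim
      | e b' =>
        have : b = b' := h
        rwa [← this]
      | m n => exact h4 b n hx
    | m n =>
      cases y with
      | c l => exact h.elim
      | top => exact h.elim
      | e b' => exact h.elim
      | m n' =>
        have : n = n' := h
        rwa [← this]

lemma le_rfl' (x : Z) : le x x := by
  cases x with
  | c k => exact le_refl k
  | top => trivial
  | e b => rfl
  | m n => rfl

lemma le_trans' {x y z : Z} (h1 : le x y) (h2 : le y z) : le x z := by
  rw [← mem_closure_iff_le] at h1 h2 ⊢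
  exact closure_minimal (singleton_subset_iff.2 h2) isClosed_closure h1

lemma le_antisymm' {x y : Z} (h1 : le x y) (h2 : le y x) : x = y := by
  cases x with
  | c k =>
    cases y with
    | c l =>
      have h3 : k ≤ l := h1
      have h4 : l ≤ k := h2
      rw [le_antisymm h3 h4]
    | top => exact h2.elim
    | e b => exact h1.elim
    | m n => exact h1.elim
  | top =>
    cases y with
    | c l => exact h1.elim
    | top => rfl
    | e b => exact h1.elim
    | m n => exact h1.elim
  | e b =>
    cases y with
    | c l => exact h1.elim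
    | top => exact h1.elim
    | e b' =>
      have : b = b' := h1
      rw [this]
    | m n => exact h2.elim
  | m n =>
    cases y with
    | c l => exact h1.elim
    | top => exact h1.elim
    | e b' => exact h1.elim
    | m n' =>
      have : n = n' := h1
      rw [this]

lemma mem_up (x y : Z) : y ∈ up x ↔ le x y := mem_closure_iff_le x y

instance : T0Space Z := by
  refine ⟨fun x y h => ?_⟩
  refine le_antisymm' ?_ ?_
  · rw [← mem_closure_iff_le, ← specializes_iff_mem_closure]
    exact h.specializes'
  · rw [← mem_closure_iff_le, ← specializes_iff_mem_closure]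
    exact h.specializes

/-- A nonempty directed set has a greatest element, or it is an unbounded set of elements `c k`. -/
lemma directed_cases (D : Set Z) (hne : D.Nonempty) (hD : DirectedOn le D) :
    (∃ z ∈ D, ∀ d ∈ D, le d z) ∨ ∀ K : ℕ, ∃ k, K ≤ k ∧ c k ∈ D := by
  by_cases h1 : top ∈ D
  · left
    refine ⟨top, h1, fun d hd => ?_⟩
    obtain ⟨z, hz, hz1, hz2⟩ := hD _ h1 _ hd
    cases z with
    | c l => exact hz1.elim
    | top => exact hz2
    | e b => exact hz1.elim
    | m n => exact hz1.elim
  by_cases h2 : ∃ n, m n ∈ D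
  · left
    obtain ⟨n, hn⟩ := h2
    refine ⟨m n, hn, fun d hd => ?_⟩
    obtain ⟨z, hz, hz1, hz2⟩ := hD _ hn _ hd
    cases z with
    | c l => exact hz1.elim
    | top => exact hz1.elim
    | e b => exact hz1.elim
    | m n' =>
      have : n = n' := hz1
      rwa [this]
  by_cases h3 : ∃ b, e b ∈ D
  · left
    obtain ⟨b, hb⟩ := h3
    refine ⟨e b, hb, fun d hd => ?_⟩
    obtain ⟨z, hz, hz1, hz2⟩ := hD _ hb _ hd
    cases z with
    | c l => exact hz1.elim
    | top => exact hz1.elim
    | e b' =>
      have : b = b' := hz1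
      rwa [this]
    | m n' => exact absurd ⟨n', hz⟩ h2
  by_cases h4 : ∃ K, ∀ k, K ≤ k → c k ∉ D
  · left
    obtain ⟨K, hK⟩ := h4
    have hc : ∀ d ∈ D, ∃ k, d = c k := by
      intro d hd
      cases d with
      | c k => exact ⟨k, rfl⟩
      | top => exact absurd hd h1
      | e b => exact absurd ⟨b, hd⟩ h3
      | m n => exact absurd ⟨n, hd⟩ h2
    obtain ⟨d0, hd0⟩ := hne
    obtain ⟨k0, rfl⟩ := hc d0 hd0
    classical
    have hfin : ((Finset.range K).filter fun k => c k ∈ D).Nonempty :=
      ⟨k0, Finset.mem_filter.2 ⟨Finset.mem_range.2 (by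
        by_contra hcon
        exact hK k0 (by omega) hd0), hd0⟩⟩
    obtain ⟨k, hk, hmax⟩ := Finset.exists_max_image _ id hfin
    refine ⟨c k, (Finset.mem_filter.1 hk).2, fun d hd => ?_⟩
    obtain ⟨l, rfl⟩ := hc d hd
    exact hmax l (Finset.mem_filter.2 ⟨Finset.mem_range.2 (by
      by_contra hcon
      exact hK l (by omega) hd), hd⟩)
  · right
    intro K
    push Not at h4
    exact h4 K

theorem isStrongDSpace : IsStrongDSpace Z := by
  refine ⟨inferInstance, fun D hne hD x U hU h => ?_⟩
  have hD' : DirectedOn le D := by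
    intro a ha b hb
    obtain ⟨z, hz, hz1, hz2⟩ := hD a ha b hb
    exact ⟨z, hz, (mem_closure_iff_le _ _).1 hz1, (mem_closure_iff_le _ _).1 hz2⟩
  rcases directed_cases D hne hD' with ⟨z, hz, hmax⟩ | hunb
  · refine ⟨z, hz, fun y hy => h ⟨?_, hy.2⟩⟩
    rw [mem_iInter₂]
    intro d hd
    rw [mem_up]
    exact le_trans' (hmax d hd) ((mem_up _ _).1 hy.1)
  · by_cases hx : le x top
    · have htop : top ∈ U := by
        refine h ⟨?_, (mem_up _ _).2 hx⟩
        rw [mem_iInter₂]
        intro d hd
        rw [mem_up]
        obtain ⟨k, -, hk⟩ := hunb 0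
        obtain ⟨z, hz, hz1, hz2⟩ := hD' _ hk _ hd
        refine le_trans' hz2 ?_
        cases z with
        | c l => trivial
        | top => trivial
        | e b => exact hz1.elim
        | m n => exact hz1.elim
      obtain ⟨k, hk⟩ := hU.2.2.1 htop
      obtain ⟨l, hl, hlD⟩ := hunb k
      refine ⟨c l, hlD, fun y hy => ?_⟩
      have h1 := (mem_up _ _).1 hy.1
      have h2 : c l ∈ U := hU.1 k l hl hk
      cases y with
      | c j => exact hU.1 l j h1 h2
      | top => exact htop
      | e b => exact h1.elim
      | m n => exact h1.elim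
    · obtain ⟨l, -, hl⟩ := hunb 0
      refine ⟨c l, hl, fun y hy => ?_⟩
      have h1 := (mem_up _ _).1 hy.1
      have h2 := (mem_up _ _).1 hy.2
      refine absurd (le_trans' h2 ?_) hx
      cases y with
      | c j => trivial
      | top => trivial
      | e b => exact h1.elim
      | m n => exact h1.elim

end Z

lemma mem_up_pi (f g : Bool → Z) : g ∈ up f ↔ ∀ b, Z.le (f b) (g b) := by
  change f ∈ closure {g} ↔ _
  rw [← specializes_iff_mem_closure, specializes_pi]
  refine forall_congr' fun b => ?_
  rw [specializes_iff_mem_closure, Z.mem_closure_iff_le]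

/-- The square of the strong d-space `Z` is not a strong d-space. -/
theorem not_isStrongDSpace : ¬ IsStrongDSpace (Bool → Z) := by
  rintro ⟨-, h⟩
  set F : ℕ → Bool → Z := fun k b => if b then Z.e true else Z.c k with hF
  set x : Bool → Z := fun b => if b then Z.e false else Z.c 0 with hx
  set U : Set (Bool → Z) := ⋃ n : ℕ, {f | Z.le (Z.c n) (f false)} ∩ {f | f true = Z.m n} with hU
  have hopen : IsOpen U := by
    refine isOpen_iUnion fun n => IsOpen.inter ?_ ?_
    · exact IsOpen.preimage (f := fun f : Bool → Z => f false) (continuous_apply false)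
        (Z.isOpen_c n)
    · exact IsOpen.preimage (f := fun f : Bool → Z => f true) (continuous_apply true)
        (Z.isOpen_m n)
  obtain ⟨d, ⟨k, rfl⟩, hk⟩ := h (range F) (range_nonempty F) (by
    rintro _ ⟨i, rfl⟩ _ ⟨j, rfl⟩
    refine ⟨F (max i j), ⟨_, rfl⟩, ?_, ?_⟩
    · refine (mem_up_pi _ _).2 fun b => ?_
      cases b with
      | false => exact le_max_left i j
      | true => rfl
    · refine (mem_up_pi _ _).2 fun b => ?_
      cases b with
      | false => exact le_max_right i j
      | true => rfl) x U hopen (by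
    rintro g ⟨h1, h2⟩
    rw [mem_iInter₂] at h1
    have h3 : ∀ k, Z.le (Z.c k) (g false) := fun k => (mem_up_pi _ _).1 (h1 (F k) ⟨k, rfl⟩) false
    have h4 : Z.le (Z.e true) (g true) := (mem_up_pi _ _).1 (h1 (F 0) ⟨0, rfl⟩) true
    have h5 : Z.le (Z.e false) (g true) := (mem_up_pi _ _).1 h2 true
    obtain ⟨n, hn⟩ : ∃ n, g true = Z.m n := by
      cases hg : g true with
      | c j => rw [hg] at h4; exact h4.elim
      | top => rw [hg] at h4; exact h4.elim
      | e b =>
        rw [hg] at h4 h5
        have h6 : true = b := h4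
        have h7 : false = b := h5
        rw [← h6] at h7
        exact absurd h7 (by decide)
      | m n => exact ⟨n, rfl⟩
    exact mem_iUnion.2 ⟨n, h3 n, hn⟩)
  have hg : (fun b => if b then Z.m (k + 1) else Z.c k : Bool → Z) ∈ U := by
    refine hk ⟨(mem_up_pi _ _).2 fun b => ?_, (mem_up_pi _ _).2 fun b => ?_⟩
    · cases b with
      | false => exact le_refl k
      | true => trivial
    · cases b with
      | false => exact Nat.zero_le k
      | true => trivial
  obtain ⟨n, hn1, hn2⟩ := mem_iUnion.1 hg
  have h1 : n ≤ k := hn1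
  have h2 : Z.m (k + 1) = Z.m n := hn2
  injection h2 with h2
  omega

/-- Being a strong d-space is invariant under homeomorphisms. -/
theorem IsStrongDSpace.of_homeomorph {X Y : Type*} [TopologicalSpace X] [TopologicalSpace Y]
    (h : X ≃ₜ Y) (hX : IsStrongDSpace X) : IsStrongDSpace Y := by
  have key : ∀ a b : X, h a ∈ closure {h b} ↔ a ∈ closure {b} := by
    intro a b
    rw [← specializes_iff_mem_closure, ← specializes_iff_mem_closure]
    exact h.isInducing.specializes_iff
  refine ⟨?_, ?_⟩
  · have := hX.1
    exact h.symm.isEmbedding.t0Space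
  · intro D hne hD x U hU hsub
    obtain ⟨d, hd, hd'⟩ := hX.2 (h ⁻¹' D) (hne.preimage h.surjective) (by
      intro a ha b hb
      obtain ⟨z, hz, hz1, hz2⟩ := hD (h a) ha (h b) hb
      refine ⟨h.symm z, ?_, ?_, ?_⟩
      · change h (h.symm z) ∈ D
        rwa [h.apply_symm_apply]
      · change a ∈ closure {h.symm z}
        rw [← key, h.apply_symm_apply]
        exact hz1
      · change b ∈ closure {h.symm z}
        rw [← key, h.apply_symm_apply]
        exact hz2) (h.symm x) (h ⁻¹' U) (hU.preimage h.continuous) (by
      rintro y ⟨hy1, hy2⟩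
      refine hsub ⟨?_, ?_⟩
      · rw [mem_iInter₂] at hy1 ⊢
        intro d hd
        have h1 : h.symm d ∈ closure {y} := hy1 (h.symm d) (by
          change h (h.symm d) ∈ D
          rwa [h.apply_symm_apply])
        have h2 := (key _ _).2 h1
        rw [h.apply_symm_apply] at h2
        exact h2
      · have h2 := (key _ _).2 hy2
        rw [h.apply_symm_apply] at h2
        exact h2)
    refine ⟨h d, hd, ?_⟩
    rintro y ⟨hy1, hy2⟩
    have h3 : h.symm y ∈ h ⁻¹' U := by
      refine hd' ⟨?_, ?_⟩
      · change d ∈ closure {h.symm y}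
        rw [← key, h.apply_symm_apply]
        exact hy1
      · change h.symm x ∈ closure {h.symm y}
        rw [← key, h.apply_symm_apply, h.apply_symm_apply]
        exact hy2
    change h (h.symm y) ∈ U at h3
    rwa [h.apply_symm_apply] at h3

/-- The homeomorphism of the `Bool`-power of `Z` with `Z × Z`. -/
def homeoProd : Z × Z ≃ₜ (Bool → Z) where
  toFun p b := if b then p.2 else p.1
  invFun f := (f false, f true)
  left_inv _ := rfl
  right_inv f := by
    funext b
    cases b <;> rfl
  continuous_toFun := by
    refine continuous_pi fun b => ?_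
    cases b
    · exact continuous_fst
    · exact continuous_snd
  continuous_invFun := (continuous_apply (A := fun _ : Bool => Z) false).prodMk
    (continuous_apply (A := fun _ : Bool => Z) true)

/-- `Z × Z` is not a strong d-space. -/
theorem not_isStrongDSpace_prod : ¬ IsStrongDSpace (Z × Z) :=
  fun h => not_isStrongDSpace (h.of_homeomorph homeoProd)

instance : Countable Z := by
  have : Function.Surjective (fun p : ℕ × ℕ => match p with
    | (0, n) => Z.c n
    | (1, n) => Z.m n
    | (2, n) => Z.e (n = 0)
    | (_, _) => Z.top) := by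
    intro z
    cases z with
    | c n => exact ⟨(0, n), rfl⟩
    | top => exact ⟨(3, 0), rfl⟩
    | e b =>
      cases b
      · exact ⟨(2, 1), rfl⟩
      · exact ⟨(2, 0), rfl⟩
    | m n => exact ⟨(1, n), rfl⟩
  exact this.countable

/-- The homeomorphism of the space of continuous maps from `Bool` to `Z`, with the topology of
pointwise convergence, with the square of `Z`. -/
def homeo : {f : Bool → Z // Continuous f} ≃ₜ (Bool → Z) where
  toFun f := f.1
  invFun f := ⟨f, continuous_of_discreteTopology⟩
  left_inv _ := rfl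
  right_inv _ := rfl
  continuous_toFun := continuous_subtype_val
  continuous_invFun := continuous_id.subtype_mk _

/-- The space of continuous maps from the discrete space `Bool` to `Z` with the topology of
pointwise convergence is not a strong d-space. -/
theorem not_isStrongDSpace_maps : ¬ IsStrongDSpace {f : Bool → Z // Continuous f} :=
  fun h => not_isStrongDSpace (h.of_homeomorph homeo)

end Run7.h706.StrongD
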